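import Pool.Agent.H74.BTL.Targets

/-!
# Row RKS: the relative rank is small
-/

set_option autoImplicit false

universe u

namespace Pool.Agent.H68.BTL

open Pool.Agent.H74.BTL
open Pool.Agent.H62.LP (Lit)

variable {G : Type u} [Group G]

theorem vL_comm (L : Subgroup G) (s : G) (l : L) (h : (l : G) * s = s * l) :
    vL L s (l : G) = vL L s 1 := by
  have e1 : (((l : G) * s : G) : G ⧸ L) = ((1 * s : G) : G ⧸ L) := by
    rw [h, one_mul]
    exact QuotientGroup.mk_mul_of_mem s l.2
  have e2 : ((l : G) : G ⧸ L) = ((1 : G) : G ⧸ L) := by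
    rw [QuotientGroup.eq]
    simp
  unfold vL
  rw [e1, e2]

/-- The elements of `L` which commute with `s` are few. -/
theorem comm_few (L : Subgroup G) (s : G) (ε : ℝ)
    (h : ∀ B : Finset G, ε * B.card ≤ rk L s B) (P : Finset L)
    (hP : ∀ l ∈ P, (l : G) * s = s * l) : ε * P.card ≤ 1 := by
  classical
  have h1 := h (P.map ⟨fun l : L => (l : G), Subtype.val_injective⟩)
  rw [Finset.card_map] at h1
  refine h1.trans ?_
  have h2 : rk L s (P.map ⟨fun l : L => (l : G), Subtype.val_injective⟩) ≤ 1 := by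
    unfold rk
    have hsub : Submodule.span ℝ (vL L s ''
        ((P.map ⟨fun l : L => (l : G), Subtype.val_injective⟩ : Finset G) : Set G)) ≤
        Submodule.span ℝ {vL L s 1} := by
      refine Submodule.span_mono ?_
      rintro v ⟨g, hg, rfl⟩
      rw [Finset.mem_coe, Finset.mem_map] at hg
      obtain ⟨l, hl, rfl⟩ := hg
      exact vL_comm L s l (hP l hl)
    refine (Submodule.finrank_mono hsub).trans ?_
    refine (finrank_span_le_card ({vL L s 1} : Set ((G ⧸ L) →₀ ℝ))).trans ?_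
    simp
  exact_mod_cast h2

open Classical in
/-- The conjugates of `s` are few. -/
theorem conj_few (hden : T_DEN.{u}) (L : Subgroup G) (s : G) (ε c p : ℝ) (hε : 0 < ε)
    (hc : 0 < c) (hp : 0 < p) (h : ∀ B : Finset G, ε * B.card ≤ rk L s B)
    (hlit : ∀ T : Finset G, T.Nonempty → ∃ Z : Finset G, Z.Nonempty ∧
      c * (T.card : ℝ) ^ (1 / p) * Z.card ≤ ((Z ×ˢ T).filter fun q => q.1 * q.2 ∈ Z).card)
    (P : Finset L) : ((P.image fun l : L => (l : G) * s * (l : G)⁻¹).card : ℝ) ≤
      (1 / (ε * c)) ^ p := by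
  set T := P.image fun l : L => (l : G) * s * (l : G)⁻¹ with hT
  rcases T.eq_empty_or_nonempty with h0 | h0
  · rw [h0]
    simp only [Finset.card_empty, Nat.cast_zero]
    positivity
  obtain ⟨Z, hZ, h1⟩ := hlit T h0
  have h2 := hden G L s ε hε h Z P
  have h3 : (((Z ×ˢ T).filter fun q => q.1 * q.2 ∈ Z).card : ℝ) ≤
      (((Z ×ˢ P).filter fun p => p.1 * (p.2 : G) * s * (p.2 : G)⁻¹ ∈ Z).card : ℝ) := by
    have : (Z ×ˢ T).filter (fun q => q.1 * q.2 ∈ Z) ⊆
        ((Z ×ˢ P).filter fun p => p.1 * (p.2 : G) * s * (p.2 : G)⁻¹ ∈ Z).image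
          fun p => (p.1, (p.2 : G) * s * (p.2 : G)⁻¹) := by
      rintro ⟨z, t⟩ hq
      rw [Finset.mem_filter, Finset.mem_product] at hq
      obtain ⟨⟨hz, ht⟩, hzt⟩ := hq
      simp only at hz ht hzt
      rw [hT, Finset.mem_image] at ht
      obtain ⟨l, hl, rfl⟩ := ht
      rw [Finset.mem_image]
      refine ⟨(z, l), ?_, rfl⟩
      rw [Finset.mem_filter, Finset.mem_product]
      refine ⟨⟨hz, hl⟩, ?_⟩
      have e : z * (l : G) * s * (l : G)⁻¹ = z * ((l : G) * s * (l : G)⁻¹) := by group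
      simp only
      rw [e]
      exact hzt
    have h4 := (Finset.card_le_card this).trans Finset.card_image_le
    exact_mod_cast h4
  have hZ0 : (0 : ℝ) < Z.card := by exact_mod_cast Finset.card_pos.2 hZ
  have h2' : ε * (((Z ×ˢ P).filter fun p => p.1 * (p.2 : G) * s * (p.2 : G)⁻¹ ∈ Z).card : ℝ) ≤
      Z.card := h2
  have h5 : ε * (c * (T.card : ℝ) ^ (1 / p) * Z.card) ≤ Z.card :=
    (mul_le_mul_of_nonneg_left (h1.trans h3) hε.le).trans h2'
  have h6 : (ε * c) * (T.card : ℝ) ^ (1 / p) ≤ 1 := by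
    have : ((ε * c) * (T.card : ℝ) ^ (1 / p)) * Z.card ≤ 1 * Z.card := by
      rw [one_mul]
      refine le_trans (le_of_eq ?_) h5
      ring
    exact le_of_mul_le_mul_right this hZ0
  have h7 : (T.card : ℝ) ^ (1 / p) ≤ 1 / (ε * c) := by
    rw [le_div_iff₀ (by positivity)]
    linarith
  have h8 := Real.rpow_le_rpow (by positivity) h7 hp.le
  rw [← Real.rpow_mul (by positivity), one_div_mul_cancel hp.ne', Real.rpow_one] at h8
  exact h8

open Classical in
theorem pf_RKS (h1 : T_DEN.{u}) (h2 : T_LIT.{u}) : T_RKS.{u} := by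
  intro G _ hL ε hε
  obtain ⟨c, hc, p, hp, hlit⟩ := h2 G hL
  refine ⟨⌈1 / ε * (1 / (ε * c)) ^ p⌉₊, fun L hLn s => ?_⟩
  by_contra hcon
  push Not at hcon
  have hB : ∀ B : Finset G, ε * B.card ≤ rk L s B := by
    intro B
    rcases B.eq_empty_or_nonempty with rfl | hB
    · simp
    · exact hcon B hB
  have hK : (0 : ℝ) ≤ (1 / (ε * c)) ^ p := by positivity
  have main : ∀ P : Finset L, P.card ≤ ⌈1 / ε * (1 / (ε * c)) ^ p⌉₊ := by
    intro P
    have e1 := conj_few h1 L s ε c p hε hc hp hB hlit P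
    have e2 : P.card ≤ ⌊1 / ε⌋₊ * (P.image fun l : L => (l : G) * s * (l : G)⁻¹).card := by
      refine Finset.card_le_mul_card_image P _ fun t ht => ?_
      rw [Finset.mem_image] at ht
      obtain ⟨l₁, hl₁, rfl⟩ := ht
      refine Nat.le_floor ?_
      have e3 := comm_few L s ε hB
        ((P.filter fun l : L => (l : G) * s * (l : G)⁻¹ = (l₁ : G) * s * (l₁ : G)⁻¹).image
          fun l => l₁⁻¹ * l) (fun l' hl' => by
            rw [Finset.mem_image] at hl'
            obtain ⟨l, hl, rfl⟩ := hl'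
            have hl2 := (Finset.mem_filter.1 hl).2
            have e4 : (l : G) * s * (l : G)⁻¹ = (l₁ : G) * s * (l₁ : G)⁻¹ := hl2
            have e5 : (l : G) * s = (l₁ : G) * s * (l₁ : G)⁻¹ * l := by
              rw [← e4]
              group
            push_cast
            rw [mul_assoc, e5]
            group)
      rw [Finset.card_image_of_injective _ (mul_right_injective _)] at e3
      rw [le_div_iff₀ hε, mul_comm]
      exact e3
    have e6 : (P.card : ℝ) ≤ 1 / ε * (1 / (ε * c)) ^ p := by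
      have e7 : (P.card : ℝ) ≤ (⌊1 / ε⌋₊ : ℝ) *
          ((P.image fun l : L => (l : G) * s * (l : G)⁻¹).card : ℝ) := by exact_mod_cast e2
      refine e7.trans (mul_le_mul (Nat.floor_le (by positivity)) e1 (by positivity) (by positivity))
    exact Nat.cast_le.1 (e6.trans (Nat.le_ceil _))
  rcases hLn with hLn | hLn
  · have : Infinite L := not_finite_iff_infinite.1 hLn
    obtain ⟨P, hP⟩ := Infinite.exists_subset_card_eq L (⌈1 / ε * (1 / (ε * c)) ^ p⌉₊ + 1)
    have := main P
    omega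
  · have hfin : Finite L := Nat.finite_of_card_ne_zero (by omega)
    have := Fintype.ofFinite L
    have h3 := main Finset.univ
    rw [Finset.card_univ, ← Nat.card_eq_fintype_card] at h3
    omega

end Pool.Agent.H68.BTL
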