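import Pool.Agent.H74.BTL.Targets

/-!
# Row TRI: the trace inequality
-/

set_option autoImplicit false

universe u

namespace Pool.Agent.H68.BTL

open Pool.Agent.H74.BTL
open scoped RealInnerProductSpace

theorem pf_TRI : T_TRI.{u} := by
  intro E _ _ _ β e B V W he hWV hWB
  have hfin : FiniteDimensional ℝ (Submodule.span ℝ (e '' (B : Set β))) :=
    FiniteDimensional.span_of_finite ℝ (B.finite_toSet.image e)
  have hW : FiniteDimensional ℝ W := Submodule.finiteDimensional_of_le hWB
  set P := PR V with hP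
  let b := stdOrthonormalBasis ℝ W
  have hexp : ∀ v ∈ Submodule.span ℝ (e '' (B : Set β)), v = ∑ x ∈ B, ⟪e x, v⟫ • e x := by
    intro v hv
    induction hv using Submodule.span_induction with
    | mem v hv =>
      obtain ⟨y, hy, rfl⟩ := hv
      have hy' : y ∈ B := hy
      rw [Finset.sum_eq_single_of_mem y hy']
      · rw [real_inner_self_eq_norm_sq, he.1 y, one_pow, one_smul]
      · intro x _ hx
        have : ⟪e x, e y⟫ = (0 : ℝ) := he.2 hx
        rw [this, zero_smul]
    | zero => simp
    | add v w _ _ h1 h2 =>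
      simp only [inner_add_right, add_smul, Finset.sum_add_distrib]
      rw [← h1, ← h2]
    | smul c v _ h1 =>
      simp only [inner_smul_right, mul_smul]
      rw [← Finset.smul_sum, ← h1]
  have hon : Orthonormal ℝ fun j => ((b j : W) : E) := by
    have := b.orthonormal
    exact this.comp_linearIsometry W.subtypeₗᵢ
  have hone : ∀ j, (1 : ℝ) = ∑ x ∈ B, ⟪e x, ((b j : W) : E)⟫ ^ 2 := by
    intro j
    have h1 := hexp _ (hWB (b j).2)
    have h2 : ⟪((b j : W) : E), ((b j : W) : E)⟫ = (1 : ℝ) := by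
      rw [real_inner_self_eq_norm_sq]
      have := hon.1 j
      rw [this, one_pow]
    rw [← h2]
    conv_lhs => rw [h1]
    rw [sum_inner]
    conv_lhs => rw [← h1]
    refine Finset.sum_congr rfl fun x _ => ?_
    rw [real_inner_smul_left, sq]
  have hPe : ∀ j x, ⟪e x, ((b j : W) : E)⟫ = (⟪((b j : W) : E), P (e x)⟫ : ℝ) := by
    intro j x
    have h1 : P ((b j : W) : E) = ((b j : W) : E) := by
      rw [hP]
      unfold PR
      exact Submodule.starProjection_eq_self_iff.2 (hWV (b j).2)
    have h2 : ⟪((b j : W) : E), P (e x)⟫ = (⟪P ((b j : W) : E), e x⟫ : ℝ) := by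
      rw [hP]
      unfold PR
      exact (Submodule.inner_starProjection_left_eq_right _ _ _).symm
    rw [h2, h1, real_inner_comm]
  calc (Module.finrank ℝ W : ℝ) = ∑ j : Fin (Module.finrank ℝ W), (1 : ℝ) := by simp
    _ = ∑ j : Fin (Module.finrank ℝ W), ∑ x ∈ B, ⟪e x, ((b j : W) : E)⟫ ^ 2 :=
        Finset.sum_congr rfl fun j _ => hone j
    _ = ∑ x ∈ B, ∑ j : Fin (Module.finrank ℝ W), ⟪e x, ((b j : W) : E)⟫ ^ 2 := Finset.sum_comm
    _ ≤ ∑ x ∈ B, ‖P (e x)‖ ^ 2 := by
        refine Finset.sum_le_sum fun x _ => ?_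
        refine le_trans (le_of_eq ?_) (hon.sum_inner_products_le (x := P (e x)) (s := Finset.univ))
        refine Finset.sum_congr rfl fun j _ => ?_
        rw [hPe, Real.norm_eq_abs, sq_abs]

end Pool.Agent.H68.BTL
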